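import Pool.Agent.LibBU39.Fin

/-!
# No rotation action of `ℤ^n` is Baire-universal

`LCL`, `Act`, `BAIRE`, `BaireUniversal`, `rot`, `Indep` are in `Pool/Agent/LibBU39/Dyn.lean`.
-/

namespace Pool.Agent.Results.MP_cf9c29_lc.AllRotations

open BU39

/-- Let `n ≥ 2`. For all reals `α_1, ..., α_n` such that `1, α_1, ..., α_n` are linearly
independent over `ℚ`, the action of `ℤ^n` on the circle by the rotations by `α_i` is a free Borel
action that is not Baire-universal. Moreover there is one local problem outside `BAIRE(ℤ^n)`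
which has Baire-measurable labellings on all these actions. -/
theorem result (n : ℕ) (hn : 2 ≤ n) :
    (∀ α : Fin n → ℝ, Indep α →
      (rot α).IsBorel ∧ (rot α).Free ∧ ¬ BaireUniversal (rot α)) ∧
    ∃ P : LCL n, P ∉ BAIRE n ∧ ∀ α : Fin n → ℝ, Indep α → (rot α).BaireSolves P := by
  obtain ⟨P, h1, h2⟩ := BU39.uniform n hn
  exact ⟨fun α hα => ⟨rot_borel α, rot_free hα, fun hU => h1 ((hU.2.2 P).1 (h2 α hα))⟩, P, h1, h2⟩

end Pool.Agent.Results.MP_cf9c29_lc.AllRotations
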